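import Pool.Agent.W2helper56.PK.Stm

/-!
# Piece A3 of project PK: one step of the attack
-/

set_option autoImplicit false

namespace Pool.Agent.W2helper66.PK

open Pool.Agent.NPC Pool.Agent.H620R2.Gauge Pool.Agent.W2helper56.PK

theorem card_le4 {T : Type} [Fintype T] {p p₁ p₂ p₃ p₄ : T → Prop}
    (h : ∀ t, p t → p₁ t ∨ p₂ t ∨ p₃ t ∨ p₄ t) :
    Nat.card {t // p t} ≤ Nat.card {t // p₁ t} + Nat.card {t // p₂ t} + Nat.card {t // p₃ t} +
      Nat.card {t // p₄ t} := by
  classical
  simp only [Nat.card_eq_fintype_card, Fintype.card_subtype]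
  have h1 : Finset.univ.filter p ⊆ ((Finset.univ.filter p₁ ∪ Finset.univ.filter p₂) ∪
      Finset.univ.filter p₃) ∪ Finset.univ.filter p₄ := by
    intro t ht
    simp only [Finset.mem_filter, Finset.mem_univ, true_and, Finset.mem_union] at ht ⊢
    have := h t ht
    tauto
  refine (Finset.card_le_card h1).trans ((Finset.card_union_le _ _).trans ?_)
  refine Nat.add_le_add_right ((Finset.card_union_le _ _).trans ?_) _
  exact Nat.add_le_add_right (Finset.card_union_le _ _) _

/-- change the bits in `D` -/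
def sw {X : Type} [DecidableEq X] (D : Finset X) (ω ω' : X → Bool) : X → Bool :=
  fun x => if x ∈ D then ω' x else ω x

variable {X A B : Type} (S : Sch X A B) [DecidableEq X]

theorem mem_pos {l : List (List Bool)} {x : X} :
    x ∈ S.pos l ↔ ∃ z ∈ l, S.g z = Sum.inl x := by
  unfold Sch.pos
  rw [List.mem_toFinset, List.mem_filterMap]
  refine exists_congr fun z => and_congr_right fun _ => ?_
  cases S.g z <;> simp

omit [DecidableEq X] in
theorem orc_eq {ω ω' : X → Bool} {z : List Bool} (h : ∀ x, S.g z = Sum.inl x → ω x = ω' x) :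
    S.orc ω z = S.orc ω' z := by
  unfold Sch.orc
  cases hz : S.g z with
  | inl x => exact h x hz
  | inr b => rfl

omit [DecidableEq X] in
theorem orc_inl {ω : X → Bool} {z : List Bool} {x : X} (h : S.g z = Sum.inl x) :
    S.orc ω z = ω x := by
  unfold Sch.orc
  rw [h]
  rfl

omit [DecidableEq X] in
theorem orc_inr {ω : X → Bool} {z : List Bool} {b : Bool} (h : S.g z = Sum.inr b) :
    S.orc ω z = b := by
  unfold Sch.orc
  rw [h]
  rfl

theorem tree_congr {β : Type} {D : DT (List Bool) β} {ω ω' : X → Bool}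
    (h : ∀ x ∈ S.pos (D.qs (S.orc ω)), ω' x = ω x) :
    D.run (S.orc ω') = D.run (S.orc ω) ∧ D.qs (S.orc ω') = D.qs (S.orc ω) :=
  DT.run_congr fun z hz => orc_eq S fun x hx => h x ((mem_pos S).2 ⟨z, hz, hx⟩)

/-- the random bits asked by the key generation -/
def Qu (u : A × (X → Bool)) : Finset X := S.pos ((S.gen u.1).qs (S.orc u.2))

/-- the swap -/
def Phi (p : S.Smp × (A × (X → Bool))) : S.Smp × (A × (X → Bool)) :=
  ((p.2.1, sw (Qu S (p.1.1, p.1.2.1) ∪ Qu S p.2) p.1.2.1 p.2.2, p.1.2.2),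
    (p.1.1, sw (Qu S (p.1.1, p.1.2.1) ∪ Qu S p.2) p.2.2 p.1.2.1))

theorem Qu_sw {a : A} {ω ω' : X → Bool} {D : Finset X} (h : Qu S (a, ω') ⊆ D) :
    (S.gen a).run (S.orc (sw D ω ω')) = (S.gen a).run (S.orc ω') ∧
      Qu S (a, sw D ω ω') = Qu S (a, ω') := by
  have h1 := tree_congr S (D := S.gen a) (ω := ω') (ω' := sw D ω ω') (fun x hx => by
    unfold sw
    rw [if_pos (h hx)])
  exact ⟨h1.1, by unfold Qu; rw [h1.2]⟩

theorem Phi_Phi (p : S.Smp × (A × (X → Bool))) : Phi S (Phi S p) = p := by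
  obtain ⟨⟨a, ω, r⟩, a', ω'⟩ := p
  unfold Phi
  dsimp only
  set D := Qu S (a, ω) ∪ Qu S (a', ω') with hD
  have h1 := (Qu_sw S (a := a') (ω := ω) (ω' := ω') (D := D) (by
    rw [hD]; exact Finset.subset_union_right)).2
  have h2 := (Qu_sw S (a := a) (ω := ω') (ω' := ω) (D := D) (by
    rw [hD]; exact Finset.subset_union_left)).2
  rw [h1, h2, Finset.union_comm (Qu S (a', ω')), ← hD]
  have e1 : ∀ ω₁ ω₂ : X → Bool, sw D (sw D ω₁ ω₂) (sw D ω₂ ω₁) = ω₁ := by
    intro ω₁ ω₂
    funext x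
    unfold sw
    by_cases hx : x ∈ D <;> simp [hx]
  rw [e1, e1]

/-- the state -/
def stt (P : Att Unit) (t : S.Smp) : List Bool × List Bool × List (List Bool × Bool) :=
  (S.pk t, S.ct t, ((P (S.pk t) (S.ct t)).qs (S.orc t.2.1)).map fun z => (z, S.orc t.2.1 z))

omit [DecidableEq X] in
/-- the consistent views -/
def CC (s : List Bool × List Bool × List (List Bool × Bool)) (u : A × (X → Bool)) : Prop :=
  ((S.gen u.1).run (S.orc u.2)).1 = s.1 ∧ ∀ p ∈ s.2.2, S.orc u.2 p.1 = p.2

/-- answer the questions about the bits asked by the key generation -/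
def fx (u : A × (X → Bool)) (z : List Bool) : Option Bool :=
  Sum.elim (fun x => if x ∈ Qu S u then some (u.2 x) else none) (fun _ => none) (S.g z)

/-- the simulated decryption -/
def DD (u : A × (X → Bool)) (c : List Bool) : DT (List Bool) Bool :=
  (S.dec ((S.gen u.1).run (S.orc u.2)).2 c).fix (fx S u)

/-- the bad pairs -/
def bad (P : Att Unit) (t : S.Smp) (u : A × (X → Bool)) : Prop :=
  (DD S u (S.ct t)).run (S.orc t.2.1) ≠ t.2.2.1 ∧
  (∀ x ∈ S.QB t, (x ∈ S.QA t ∨ x ∈ Qu S u) → x ∈ S.known P t) ∧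
  ∀ x ∈ S.QA t, x ∈ S.pos ((DD S u (S.ct t)).qs (S.orc t.2.1)) → x ∈ S.known P t

theorem fx_inl {u : A × (X → Bool)} {z : List Bool} {x : X} (h : S.g z = Sum.inl x) :
    fx S u z = if x ∈ Qu S u then some (u.2 x) else none := by
  unfold fx
  rw [h]
  rfl

theorem fx_inr {u : A × (X → Bool)} {z : List Bool} {b : Bool} (h : S.g z = Sum.inr b) :
    fx S u z = none := by
  unfold fx
  rw [h]
  rfl

theorem Phi_mem (P : Att Unit) (s : List Bool × List Bool × List (List Bool × Bool))
    (p : S.Smp × (A × (X → Bool))) (h1 : stt S P p.1 = s) (h2 : CC S s p.2)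
    (h3 : bad S P p.1 p.2) : stt S P (Phi S p).1 = s ∧ CC S s (Phi S p).2 ∧
      S.Wrong (Phi S p).1 := by
  obtain ⟨⟨a, ω, b, v⟩, a', ω'⟩ := p
  subst h1
  obtain ⟨hC1, hC2⟩ := h2
  obtain ⟨hb1, hb2, hb3⟩ := h3
  set t : S.Smp := (a, ω, b, v) with ht
  dsimp only at hC1 hC2 hb1 hb2 hb3
  have hK : ∀ x ∈ S.known P t, ω' x = ω x := by
    intro x hx
    obtain ⟨z, hz, hgz⟩ := (mem_pos S).1 hx
    have h4 := hC2 (z, S.orc ω z) (List.mem_map.2 ⟨z, hz, rfl⟩)
    dsimp only at h4
    rwa [orc_inl S hgz, orc_inl S hgz] at h4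
  set D := Qu S (a, ω) ∪ Qu S (a', ω') with hD
  have hPhi : Phi S (t, (a', ω')) = ((a', sw D ω ω', b, v), (a, sw D ω' ω)) := rfl
  rw [hPhi]
  dsimp only
  set ω₂ := sw D ω ω' with hω₂
  set ω₃ := sw D ω' ω with hω₃
  have hA := Qu_sw S (a := a') (ω := ω) (ω' := ω') (D := D) (by
    rw [hD]; exact Finset.subset_union_right)
  have hA' := Qu_sw S (a := a) (ω := ω') (ω' := ω) (D := D) (by
    rw [hD]; exact Finset.subset_union_left)
  have hk2 : ∀ x ∈ S.known P t, ω₂ x = ω x := by
    intro x hx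
    rw [hω₂]
    unfold sw
    split
    · exact hK x hx
    · rfl
  have hk3 : ∀ x ∈ S.known P t, ω₃ x = ω x := by
    intro x hx
    rw [hω₃]
    unfold sw
    split
    · rfl
    · exact hK x hx
  -- the public key
  have e1 : S.pk ((a', ω₂, b, v) : S.Smp) = S.pk t := by
    unfold Sch.pk
    dsimp only
    rw [hA.1]
    exact hC1
  have e2 : S.sk ((a', ω₂, b, v) : S.Smp) = ((S.gen a').run (S.orc ω')).2 := by
    unfold Sch.sk
    dsimp only
    rw [hA.1]
  -- the ciphertext
  have e3 : S.ct ((a', ω₂, b, v) : S.Smp) = S.ct t := by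
    have h5 : ∀ x ∈ S.pos ((S.enc v (S.pk t) b).qs (S.orc ω)), ω₂ x = ω x := by
      intro x hx
      rw [hω₂]
      unfold sw
      split
      · next hxD =>
        apply hK
        apply hb2 x hx
        rw [hD, Finset.mem_union] at hxD
        exact hxD
      · rfl
    have h6 := (tree_congr S h5).1
    unfold Sch.ct
    dsimp only
    rw [e1]
    exact h6
  have e4 : stt S P ((a', ω₂, b, v) : S.Smp) = stt S P t := by
    unfold stt
    rw [e1, e3]
    have h7 := (tree_congr S (D := P (S.pk t) (S.ct t)) (ω := ω) (ω' := ω₂) hk2).2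
    dsimp only
    rw [h7]
    congr 2
    apply List.map_congr_left
    intro z hz
    congr 1
    exact orc_eq S fun x hx => hk2 x ((mem_pos S).2 ⟨z, hz, hx⟩)
  refine ⟨e4, ⟨?_, ?_⟩, ?_⟩
  · dsimp only
    rw [hA'.1]
    rfl
  · intro p hp
    obtain ⟨z, hz, rfl⟩ := List.mem_map.1 hp
    exact orc_eq S fun x hx => hk3 x ((mem_pos S).2 ⟨z, hz, hx⟩)
  · unfold Sch.Wrong
    rw [e2, e3]
    dsimp only
    have h8 : (S.dec ((S.gen a').run (S.orc ω')).2 (S.ct t)).run (S.orc ω₂) =
        (DD S (a', ω') (S.ct t)).run (S.orc ω) := by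
      unfold DD
      rw [DT.run_fix]
      refine (DT.run_congr ?_).1
      intro z hz
      cases hg : S.g z with
      | inr c =>
        rw [fx_inr S hg, orc_inr S hg]
        simp only [Option.getD_none]
        rw [orc_inr S hg]
      | inl x =>
        rw [orc_inl S hg, fx_inl S hg, orc_inl S hg, hω₂]
        unfold sw
        by_cases hx1 : x ∈ Qu S (a', ω')
        · have hxD : x ∈ D := by rw [hD]; exact Finset.mem_union_right _ hx1
          rw [if_pos hxD, if_pos hx1]
          rfl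
        · rw [if_neg hx1]
          simp only [Option.getD_none]
          split
          · next hxD =>
            rw [hD, Finset.mem_union] at hxD
            rcases hxD with hxD | hxD
            · apply hK
              apply hb3 x hxD
              rw [mem_pos]
              refine ⟨z, ?_, hg⟩
              unfold DD
              rw [DT.qs_fix, List.mem_filter]
              refine ⟨hz, ?_⟩
              rw [fx_inl S hg, if_neg hx1]
              rfl
            · exact absurd hxD hx1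
          · rfl
    rw [h8]
    exact hb1

theorem p_step (havg : P_avg) : P_step := by
  intro X A B _ _ _ _ _ _ S q n G hS P hP
  obtain ⟨τ, hτ1, hτ2⟩ := havg S.Smp (A × (X → Bool))
    (List Bool × List Bool × List (List Bool × Bool)) (stt S P) (CC S) (bad S P) S.Wrong
    (fun t => ⟨(t.1, t.2.1), rfl, by
      intro p hp
      obtain ⟨z, -, rfl⟩ := List.mem_map.1 hp
      rfl⟩)
    (fun s => by
      have : Finite {p : S.Smp × (A × (X → Bool)) // stt S P p.1 = s ∧ CC S s p.2 ∧
        S.Wrong p.1} := inferInstance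
      refine Nat.card_le_card_of_injective (fun p => ⟨Phi S p.1,
        Phi_mem S P s p.1 p.2.1 p.2.2.1 p.2.2.2⟩) ?_
      intro p p' hpp
      have h1 : Phi S p.1 = Phi S p'.1 := congrArg Subtype.val hpp
      have h2 := congrArg (Phi S) h1
      rw [Phi_Phi, Phi_Phi] at h2
      exact Subtype.ext h2)
  set Gs : Att Bool := fun pk c => (P pk c).log.bind fun r => DD S (τ (pk, c, r.2)) c with hGs
  set P' : Att Unit := fun pk c => (P pk c).log.bind fun r =>
    (DT.asks ((S.gen (τ (pk, c, r.2)).1).qs (S.orc (τ (pk, c, r.2)).2))).bind fun _ =>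
      (DD S (τ (pk, c, r.2)) c).bind fun _ => DT.ret () with hP'
  have hDLe : ∀ u c, (DD S u c).Le q := fun u c => DT.le_fix _ (hS.dec_le _ _)
  have hDAll : ∀ u c, (DD S u c).All G := fun u c => DT.all_fix _ (hS.dec_all _ _)
  have hlog : ∀ t : S.Smp, ((P (S.pk t) (S.ct t)).log.run (S.orc t.2.1)).2 = (stt S P t).2.2 := by
    intro t
    rw [DT.run_log]
    rfl
  have hst : ∀ t : S.Smp, (S.pk t, S.ct t, ((P (S.pk t) (S.ct t)).log.run (S.orc t.2.1)).2) =
      stt S P t := by
    intro t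
    rw [hlog]
    rfl
  have hqs : ∀ t : S.Smp, (P' (S.pk t) (S.ct t)).qs (S.orc t.2.1) =
      (P (S.pk t) (S.ct t)).qs (S.orc t.2.1) ++
      ((S.gen (τ (stt S P t)).1).qs (S.orc (τ (stt S P t)).2) ++
        (DD S (τ (stt S P t)) (S.ct t)).qs (S.orc t.2.1)) := by
    intro t
    rw [hP']
    dsimp only
    rw [DT.qs_bind, DT.qs_log, hst, DT.qs_bind, DT.qs_asks, DT.qs_bind]
    simp
  refine ⟨P', Gs, ?_, ?_, ?_, ?_⟩
  · intro pk c
    refine ⟨?_, ?_⟩
    · refine (DT.le_bind (m := q + (q + 0)) (fun r => ?_) (DT.le_log (hP pk c).1)).mono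
        (by omega)
      exact DT.le_bind (fun _ => DT.le_bind (fun _ => DT.le_ret _ _) (hDLe _ _))
        ((DT.le_asks _).mono (DT.length_qs _ (hS.gen_le _)))
    · refine DT.all_bind (fun r => ?_) (DT.all_log (hP pk c).2)
      exact DT.all_bind (fun _ => DT.all_bind (fun _ => DT.all_ret _ _) (hDAll _ _))
        (DT.all_asks _ ((hS.gen_all _).qs _))
  · intro pk c
    refine ⟨?_, ?_⟩
    · exact (DT.le_bind (m := q) (fun r => hDLe _ _) (DT.le_log (hP pk c).1)).mono (by omega)
    · exact DT.all_bind (fun r => hDAll _ _) (DT.all_log (hP pk c).2)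
  · intro t x hx
    obtain ⟨z, hz, hgz⟩ := (mem_pos S).1 hx
    refine (mem_pos S).2 ⟨z, ?_, hgz⟩
    rw [hqs]
    exact List.mem_append_left _ hz
  · have hQ : ∀ t : S.Smp, ∀ x ∈ Qu S (τ (stt S P t)), x ∈ S.known P' t := by
      intro t x hx
      obtain ⟨z, hz, hgz⟩ := (mem_pos S).1 hx
      refine (mem_pos S).2 ⟨z, ?_, hgz⟩
      rw [hqs]
      exact List.mem_append_right _ (List.mem_append_left _ hz)
    have hR : ∀ t : S.Smp, ∀ x ∈ S.pos ((DD S (τ (stt S P t)) (S.ct t)).qs (S.orc t.2.1)),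
        x ∈ S.known P' t := by
      intro t x hx
      obtain ⟨z, hz, hgz⟩ := (mem_pos S).1 hx
      refine (mem_pos S).2 ⟨z, ?_, hgz⟩
      rw [hqs]
      exact List.mem_append_right _ (List.mem_append_right _ hz)
    have hG : ∀ t : S.Smp, (Gs (S.pk t) (S.ct t)).run (S.orc t.2.1) =
        (DD S (τ (stt S P t)) (S.ct t)).run (S.orc t.2.1) := by
      intro t
      rw [hGs]
      dsimp only
      rw [DT.run_bind, hst]
    refine (card_le4 (p₁ := fun t => bad S P t (τ (stt S P t)))
      (p₂ := fun t => ∃ x, x ∈ S.QB t ∧ x ∈ S.QA t ∧ x ∉ S.known P t)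
      (p₃ := fun t => ∃ x, x ∈ S.QB t ∧ x ∈ S.known P' t ∧ x ∉ S.known P t)
      (p₄ := fun t => ∃ x, x ∈ S.QA t ∧ x ∈ S.known P' t ∧ x ∉ S.known P t) ?_).trans ?_
    · intro t ht
      by_contra hc
      push Not at hc
      obtain ⟨c1, c2, c3, c4⟩ := hc
      apply c1
      refine ⟨?_, ?_, ?_⟩
      · rw [← hG]
        exact ht
      · rintro x hx (h | h)
        · exact c2 x hx h
        · exact c3 x hx (hQ t x h)
      · intro x hx h
        exact c4 x hx (hR t x h)
    · gcongr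

end Pool.Agent.W2helper66.PK
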